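import Pool.Agent.Helper52.SG.Goals

/-!
# SG-FTB: the subgroup of the elements of the groups `Pr a g`
-/

set_option autoImplicit false

namespace Pool.Agent.Helper85.SG.FTB

open Subgroup Pool.H83Shunkov Pool.Agent.Helper29.SH Pool.Agent.Helper52.SG

theorem a_mem_Pr {G : Type} [Group G] (a g : G) : a ∈ Pr a g := subset_closure (by simp)

theorem conj_mem_Pr {G : Type} [Group G] {a c : G} (hc : c * a = a * c) (g : G) {f : G}
    (hf : f ∈ Pr a g) : c⁻¹ * f * c ∈ Pr a (g * c) := by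
  have h1 : (Pr a g).map (MulAut.conj c⁻¹).toMonoidHom = Pr a (g * c) := by
    have e1 : c⁻¹ * a * c = a := by
      calc c⁻¹ * a * c = c⁻¹ * (a * c) := by group
        _ = c⁻¹ * (c * a) := by rw [hc]
        _ = a := by group
    have e2 : c⁻¹ * (g⁻¹ * a * g) * c = (g * c)⁻¹ * a * (g * c) := by group
    rw [Pr, MonoidHom.map_closure, Pr]
    congr 1
    rw [Set.image_pair]
    have e3 : (MulAut.conj c⁻¹).toMonoidHom a = a := by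
      show c⁻¹ * a * c⁻¹⁻¹ = a
      rw [inv_inv, e1]
    have e4 : (MulAut.conj c⁻¹).toMonoidHom (g⁻¹ * a * g) = (g * c)⁻¹ * a * (g * c) := by
      show c⁻¹ * (g⁻¹ * a * g) * c⁻¹⁻¹ = _
      rw [inv_inv, e2]
    rw [e3, e4]
  rw [← h1]
  refine ⟨f, hf, ?_⟩
  show c⁻¹ * f * c⁻¹⁻¹ = _
  rw [inv_inv]

theorem t (hFTA : S_FTA) : S_FTB := by
  intro G _ a N p hp hp2 ha hN hfin hT
  have hNa : Inv a N := fun k hk => hN.conj_mem' k hk a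
  have key := hFTA G a N p hp hp2 ha hNa hfin hT
  let F : Subgroup G :=
    { carrier := {x | x ∈ N ∧ ∃ g ∈ N, x ∈ Pr a g}
      one_mem' := ⟨N.one_mem, 1, N.one_mem, one_mem _⟩
      mul_mem' := by
        rintro x y ⟨hx, g, hg, hxg⟩ ⟨hy, h, hh, hyh⟩
        refine ⟨N.mul_mem hx hy, ?_⟩
        obtain ⟨k, hk, hk2⟩ := key x y⁻¹ g h hg hh hx hxg (N.inv_mem hy) (inv_mem hyh)
        rw [inv_inv] at hk2
        exact ⟨k, hk, hk2⟩
      inv_mem' := by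
        rintro x ⟨hx, g, hg, hxg⟩
        exact ⟨N.inv_mem hx, g, hg, inv_mem hxg⟩ }
  have memF : ∀ x, x ∈ F ↔ x ∈ N ∧ ∃ g ∈ N, x ∈ Pr a g := fun x => Iff.rfl
  refine ⟨F, fun x hx => ((memF x).1 hx).1, ?_, ?_, ?_, ?_, ?_⟩
  · intro n hn f hf
    -- `n = c k`
    have hy1 : a⁻¹ * (n⁻¹ * a * n) ∈ Pr a n :=
      mul_mem (inv_mem (a_mem_Pr a n)) (subset_closure (by simp))
    have hy2 : a⁻¹ * (n⁻¹ * a * n) ∈ N := by
      have h1 : a⁻¹ * (n⁻¹ * a * n) = a⁻¹ * n⁻¹ * a * n := by group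
      rw [h1]
      exact N.mul_mem (hNa _ (N.inv_mem hn)) hn
    obtain ⟨k, hk, hk2⟩ := h_BIJ G a (Pr a n ⊓ N) ((hfin n hn).subset (fun y hy => hy.1))
      (fun k hk => mem_inf.2 ⟨mul_mem (mul_mem (inv_mem (a_mem_Pr a n)) (mem_inf.1 hk).1)
        (a_mem_Pr a n), hNa k (mem_inf.1 hk).2⟩)
      (fun k hk hc => hT n hn k (mem_inf.1 hk).1 (mem_inf.1 hk).2 hc) _ (mem_inf.2 ⟨hy1, hy2⟩)
    obtain ⟨hkP, hkN⟩ := mem_inf.1 hk
    have hkF : k ∈ F := (memF k).2 ⟨hkN, n, hn, hkP⟩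
    have e1 : n⁻¹ * a * n = k⁻¹ * a * k := by
      calc n⁻¹ * a * n = a * (a⁻¹ * (n⁻¹ * a * n)) := by group
        _ = a * (a⁻¹ * k⁻¹ * a * k) := by rw [hk2]
        _ = k⁻¹ * a * k := by group
    have hc : (n * k⁻¹) * a = a * (n * k⁻¹) := by
      calc (n * k⁻¹) * a = n * (k⁻¹ * a * k) * k⁻¹ := by group
        _ = n * (n⁻¹ * a * n) * k⁻¹ := by rw [e1]
        _ = a * (n * k⁻¹) := by group
    have hcN : n * k⁻¹ ∈ N := N.mul_mem hn (N.inv_mem hkN)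
    obtain ⟨hfN, g, hg, hfg⟩ := (memF f).1 hf
    have h2 : (n * k⁻¹)⁻¹ * f * (n * k⁻¹) ∈ F :=
      (memF _).2 ⟨hN.conj_mem' f hfN _, g * (n * k⁻¹), N.mul_mem hg hcN, conj_mem_Pr hc g hfg⟩
    have h3 : n⁻¹ * f * n = k⁻¹ * ((n * k⁻¹)⁻¹ * f * (n * k⁻¹)) * k := by group
    rw [h3]
    exact F.mul_mem (F.mul_mem (F.inv_mem hkF) h2) hkF
  · intro k hk
    obtain ⟨hkN, g, hg, hkg⟩ := (memF k).1 hk
    exact (memF _).2 ⟨hNa k hkN, g, hg,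
      mul_mem (mul_mem (inv_mem (a_mem_Pr a g)) hkg) (a_mem_Pr a g)⟩
  · intro k hk hc
    obtain ⟨hkN, g, hg, hkg⟩ := (memF k).1 hk
    exact hT g hg k hkg hkN hc
  · intro f hf
    obtain ⟨hfN, g, hg, hfg⟩ := (memF f).1 hf
    refine ⟨Pr a g ⊓ N, ?_, (hfin g hg).subset (fun y hy => hy.1), ?_, mem_inf.2 ⟨hfg, hfN⟩⟩
    · intro x hx
      exact (memF x).2 ⟨(mem_inf.1 hx).2, g, hg, (mem_inf.1 hx).1⟩
    · intro k hk
      exact mem_inf.2 ⟨mul_mem (mul_mem (inv_mem (a_mem_Pr a g)) (mem_inf.1 hk).1)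
        (a_mem_Pr a g), hNa k (mem_inf.1 hk).2⟩
  · intro g hg
    refine (memF _).2 ⟨?_, g, hg, mul_mem (inv_mem (a_mem_Pr a g)) (subset_closure (by simp))⟩
    have h1 : a⁻¹ * (g⁻¹ * a * g) = a⁻¹ * g⁻¹ * a * g := by group
    rw [h1]
    exact N.mul_mem (hNa _ (N.inv_mem hg)) hg

end Pool.Agent.Helper85.SG.FTB
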